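import Mathlib
import Pool.Agent.Helper22.OracleBaire

set_option autoImplicit false

/-!
# The use of an oracle procedure, regions of words
-/

namespace Pool.Agent.Helper8.Sip

open Pool.Agent.Helper22 N487b59b3 N68a2faeb N793a5b8e Filter Topology

section

variable {α β : Type} [N487b59b3 α] [N487b59b3 β]

/-- the queries of a run -/
def queries (M : OracleProc α β) (X : Oracle) (a : α) : List (List Bool) :=
  (List.range (M.clock a).length).map fun k => M.query (a, M.answers X a k)

theorem queries_length (M : OracleProc α β) (X : Oracle) (a : α) :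
    (queries M X a).length = (M.clock a).length := by simp [queries]

theorem answers_congr (M : OracleProc α β) {X Y : Oracle} (a : α) (n : ℕ)
    (h : ∀ k < n, Y (M.query (a, M.answers X a k)) = X (M.query (a, M.answers X a k))) :
    M.answers Y a n = M.answers X a n := by
  induction n with
  | zero => rfl
  | succ n ih =>
    rw [OracleProc.answers, OracleProc.answers, ih fun k hk => h k (by omega), h n (by omega)]

theorem run_congr (M : OracleProc α β) {X Y : Oracle} (a : α)
    (h : ∀ q ∈ queries M X a, Y q = X q) : M.run Y a = M.run X a := by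
  rw [OracleProc.run, OracleProc.run, answers_congr M a _ fun k hk => h _ ?_]
  exact List.mem_map.2 ⟨k, List.mem_range.2 hk, rfl⟩

end

/-- `Y` agrees with `X` on the words of length at most `b` -/
def Agree (b : ℕ) (X Y : Oracle) : Prop := ∀ w : List Bool, w.length ≤ b → Y w = X w

theorem Agree.refl (b : ℕ) (X : Oracle) : Agree b X X := fun _ _ => rfl

theorem Agree.trans {b b' : ℕ} {X Y Z : Oracle} (h : Agree b X Y) (h' : Agree b' Y Z)
    (hb : b ≤ b') : Agree b X Z := fun w hw => (h' w (hw.trans hb)).trans (h w hw)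

theorem Agree.mono {b b' : ℕ} {X Y : Oracle} (h : Agree b' X Y) (hb : b ≤ b') : Agree b X Y :=
  fun w hw => h w (hw.trans hb)

theorem exists_agree {X : Oracle} {φ : Oracle → Prop} (h : ∀ᶠ Y in 𝓝 X, φ Y) :
    ∃ b, ∀ Y, Agree b X Y → φ Y := by
  obtain ⟨U, hU, hUo, hXU⟩ := eventually_nhds_iff.1 h
  obtain ⟨P, N, hX, hPN⟩ := exists_cyl hUo hXU
  refine ⟨((P ++ N).map List.length).sum, fun Y hY => hU _ (hPN ⟨fun q hq => ?_, fun q hq => ?_⟩)⟩
  · rw [hY q ?_]
    · exact hX.1 q hq
    · exact List.single_le_sum (by simp) _ (List.mem_map.2 ⟨q, by simp [hq], rfl⟩)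
  · rw [hY q ?_]
    · exact hX.2 q hq
    · exact List.single_le_sum (by simp) _ (List.mem_map.2 ⟨q, by simp [hq], rfl⟩)

/-! ## Regions -/

/-- the words of the regions -/
def wd (i : ℕ) (b : Bool) (y : List Bool) : List Bool :=
  true :: b :: (List.replicate i true ++ false :: y)

theorem wd_length (i : ℕ) (b : Bool) (y : List Bool) : (wd i b y).length = i + 3 + y.length := by
  simp [wd]; omega

theorem rep_inj {i j : ℕ} {y z : List Bool}
    (h : List.replicate i true ++ false :: y = List.replicate j true ++ false :: z) :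
    i = j ∧ y = z := by
  induction i generalizing j with
  | zero =>
    cases j with
    | zero => simpa using h
    | succ j => simp [List.replicate_succ] at h
  | succ i ih =>
    cases j with
    | zero => simp [List.replicate_succ] at h
    | succ j =>
      have h1 : List.replicate i true ++ false :: y = List.replicate j true ++ false :: z := by
        simpa [List.replicate_succ] using h
      obtain ⟨h2, h3⟩ := ih h1
      exact ⟨by rw [h2], h3⟩

theorem wd_inj {i j : ℕ} {b c : Bool} {y z : List Bool} (h : wd i b y = wd j c z) :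
    i = j ∧ b = c ∧ y = z := by
  rw [wd, wd, List.cons.injEq, List.cons.injEq] at h
  obtain ⟨-, h1, h2⟩ := h
  obtain ⟨h3, h4⟩ := rep_inj h2
  exact ⟨h3, h1, h4⟩

open Classical in
/-- the oracle `X` changed to `g` in the region `(i, n)` -/
noncomputable def put (X : Oracle) (i n : ℕ) (g : Bool → List Bool → Bool) : Oracle := fun w =>
  if h : ∃ p : Bool × List Bool, p.2.length = n ∧ w = wd i p.1 p.2 then g h.choose.1 h.choose.2
  else X w

theorem put_wd (X : Oracle) (i n : ℕ) (g : Bool → List Bool → Bool) (c : Bool) (y : List Bool)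
    (hy : y.length = n) : put X i n g (wd i c y) = g c y := by
  have h : ∃ p : Bool × List Bool, p.2.length = n ∧ wd i c y = wd i p.1 p.2 := ⟨(c, y), hy, rfl⟩
  rw [put, dif_pos h]
  obtain ⟨-, h1, h2⟩ := wd_inj h.choose_spec.2
  rw [← h1, ← h2]

theorem put_of_not (X : Oracle) (i n : ℕ) (g : Bool → List Bool → Bool) (w : List Bool)
    (h : ∀ c y, y.length = n → w ≠ wd i c y) : put X i n g w = X w := by
  rw [put, dif_neg]
  rintro ⟨p, h1, h2⟩
  exact h _ _ h1 h2

theorem put_congr (X : Oracle) (i n : ℕ) (g g' : Bool → List Bool → Bool) (w : List Bool)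
    (h : ∀ c y, y.length = n → w = wd i c y → g c y = g' c y) :
    put X i n g w = put X i n g' w := by
  by_cases hw : ∃ c y, y.length = n ∧ w = wd i c y
  · obtain ⟨c, y, hy, rfl⟩ := hw
    rw [put_wd _ _ _ _ _ _ hy, put_wd _ _ _ _ _ _ hy, h c y hy rfl]
  · push Not at hw
    rw [put_of_not _ _ _ _ _ hw, put_of_not _ _ _ _ _ hw]

theorem agree_put (X : Oracle) (i n : ℕ) (g : Bool → List Bool → Bool) (b : ℕ)
    (hb : b < i + 3 + n) : Agree b X (put X i n g) := by
  intro w hw
  refine put_of_not _ _ _ _ _ fun c y hy h => ?_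
  rw [h, wd_length] at hw
  omega

/-- side `c` of the region `(i, n)` is not empty -/
def Side (c : Bool) (X : Oracle) (i n : ℕ) : Prop := ∃ y : List Bool, y.length = n ∧ X (wd i c y) = true

theorem side_put (c : Bool) (X : Oracle) (i n : ℕ) (g : Bool → List Bool → Bool) :
    Side c (put X i n g) i n ↔ ∃ y : List Bool, y.length = n ∧ g c y = true := by
  constructor
  · rintro ⟨y, hy, h⟩
    exact ⟨y, hy, by rwa [put_wd _ _ _ _ _ _ hy] at h⟩
  · rintro ⟨y, hy, h⟩
    exact ⟨y, hy, by rwa [put_wd _ _ _ _ _ _ hy]⟩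

theorem side_put_ne (c : Bool) (X : Oracle) (i n : ℕ) (g : Bool → List Bool → Bool) {j m : ℕ}
    (h : j ≠ i ∨ m ≠ n) : Side c (put X i n g) j m ↔ Side c X j m := by
  have h1 : ∀ y : List Bool, y.length = m → put X i n g (wd j c y) = X (wd j c y) := by
    intro y hy
    refine put_of_not _ _ _ _ _ fun c' y' hy' he => ?_
    obtain ⟨h2, -, h3⟩ := wd_inj he
    rcases h with h | h
    · exact h h2
    · exact h (by rw [← hy, h3, hy'])
  constructor
  · rintro ⟨y, hy, h2⟩
    exact ⟨y, hy, by rwa [h1 y hy] at h2⟩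
  · rintro ⟨y, hy, h2⟩
    exact ⟨y, hy, by rwa [h1 y hy]⟩

theorem side_agree {c : Bool} {X Y : Oracle} {i n b : ℕ} (h : Agree b X Y) (hb : i + 3 + n ≤ b) :
    Side c Y i n ↔ Side c X i n := by
  have h1 : ∀ y : List Bool, y.length = n → Y (wd i c y) = X (wd i c y) := fun y hy =>
    h _ (by rw [wd_length, hy]; exact hb)
  constructor
  · rintro ⟨y, hy, h2⟩
    exact ⟨y, hy, by rwa [h1 y hy] at h2⟩
  · rintro ⟨y, hy, h2⟩
    exact ⟨y, hy, by rwa [h1 y hy]⟩

end Pool.Agent.Helper8.Sip
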