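import Mathlib
import Pool.Agent.Helper8.Sip.Use

set_option autoImplicit false

/-!
# The stage lemma
-/

namespace Pool.Agent.Helper8.Sip

open Pool.Agent.Helper22 N487b59b3 N68a2faeb N793a5b8e Filter Topology

/-- pairs of verifiers with witness bounds -/
abbrev Pr : Type := (OracleProc (List Bool × List Bool) Bool × Polynomial ℕ) ×
  (OracleProc (List Bool × List Bool) Bool × Polynomial ℕ)

/-- exactly one of the two verifiers accepts each word -/
def Valid (P : Pr) (X : Oracle) : Prop :=
  ∀ z, Accepts P.1.1 P.1.2 X z ↔ ¬ Accepts P.2.1 P.2.2 X z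

/-- the word `0^n` -/
def zr (n : ℕ) : List Bool := List.replicate n false

@[simp] theorem zr_length (n : ℕ) : (zr n).length = n := by simp [zr]

/-- `f` is not a reduction of the language of side 1 to the language of the first verifier, as
witnessed by `0^n` -/
def Diag (P : Pr) (f : OracleProc (List Bool) (List Bool)) (i : ℕ) (X : Oracle) (n : ℕ) : Prop :=
  ¬ (Side true X i n ↔ Accepts P.1.1 P.1.2 X (f.run X (zr n)))

/-- exactly one side is not empty -/
def Promise (X : Oracle) (i n : ℕ) : Prop := Side true X i n ↔ ¬ Side false X i n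

/-! ## Bounds -/

theorem exists_bound (M : OracleProc (List Bool × List Bool) Bool) (p : Polynomial ℕ)
    (f : OracleProc (List Bool) (List Bool)) : ∃ q, PB q ∧ ∀ (n : ℕ) (Y : Oracle),
      (f.clock (zr n)).length ≤ q n ∧ ∀ w : List Bool, w.length ≤ p.eval (f.run Y (zr n)).length →
        (M.clock (f.run Y (zr n), w)).length ≤ q n := by
  obtain ⟨B1, hB1, hm1, h1⟩ := FP.bound ((isPolyTime_iff _).1 f.clock_poly)
  obtain ⟨B2, hB2, hm2, h2⟩ := FP.bound ((isPolyTime_iff _).1 f.out_poly)
  obtain ⟨B3, hB3, hm3, h3⟩ := FP.bound ((isPolyTime_iff _).1 M.clock_poly)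
  have hp : PB fun n => p.eval n := PB.poly p
  let u : ℕ → ℕ := fun n => B1 (3 * n)
  let v : ℕ → ℕ := fun n => B2 (2 * (3 * n) + 1 + 3 * u n)
  let t : ℕ → ℕ := fun n => B3 (2 * (3 * v n) + 1 + 3 * p.eval (v n))
  have hu : PB u := hB1.comp (by fun_prop)
  have hv : PB v := hB2.comp (by fun_prop)
  have hpv : PB fun n => p.eval (v n) := hp.comp hv
  have ht : PB t := hB3.comp (by fun_prop)
  refine ⟨fun n => u n + t n, by fun_prop, fun n Y => ?_⟩
  have e1 : (f.clock (zr n)).length ≤ u n := by
    have := h1 (zr n)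
    simp only [sz_bits, zr_length] at this
    show _ ≤ B1 (3 * n)
    omega
  refine ⟨e1.trans (Nat.le_add_right _ _), fun w hw => ?_⟩
  have e2 : (f.run Y (zr n)).length ≤ v n := by
    have h4 := h2 (zr n, f.answers Y (zr n) (f.clock (zr n)).length)
    have h5 : sz (zr n, f.answers Y (zr n) (f.clock (zr n)).length) ≤
        2 * (3 * n) + 1 + 3 * u n := by
      simp only [sz_pair, sz_bits, zr_length, OracleProc.answers_length]
      omega
    have h6 := h4.trans (hm2 h5)
    rw [sz_bits] at h6
    show _ ≤ B2 (2 * (3 * n) + 1 + 3 * u n)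
    have h7 : f.out (zr n, f.answers Y (zr n) (f.clock (zr n)).length) = f.run Y (zr n) := rfl
    rw [h7] at h6
    omega
  have e3 : w.length ≤ p.eval (v n) := hw.trans (poly_mono p e2)
  have h4 := h3 (f.run Y (zr n), w)
  have h5 : sz (f.run Y (zr n), w) ≤ 2 * (3 * v n) + 1 + 3 * p.eval (v n) := by
    simp only [sz_pair, sz_bits]
    omega
  have h6 := h4.trans (hm3 h5)
  rw [sz_bits] at h6
  have h7 : (M.clock (f.run Y (zr n), w)).length ≤ t n := by
    show _ ≤ B3 (2 * (3 * v n) + 1 + 3 * p.eval (v n))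
    omega
  exact h7.trans (Nat.le_add_left _ _)

theorem exists_lt_two_pow {q : ℕ → ℕ} (hq : PB q) (b : ℕ) : ∃ n, b ≤ n ∧ q n < 2 ^ n := by
  obtain ⟨p, hp⟩ := hq
  obtain ⟨e, he⟩ := poly_le_pow p
  have h1 : Tendsto (fun n : ℕ => (n : ℝ) ^ e / (2 : ℝ) ^ n) atTop (𝓝 0) :=
    tendsto_pow_const_div_const_pow_of_one_lt e (by norm_num)
  have h2 : Tendsto (fun n : ℕ => (e : ℝ) / (2 : ℝ) ^ n) atTop (𝓝 0) := by
    have := tendsto_pow_atTop_atTop_of_one_lt (r := (2 : ℝ)) (by norm_num)
    exact tendsto_const_nhds.div_atTop this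
  have h3 := h1.add h2
  rw [add_zero] at h3
  have h4 := (h3.eventually (gt_mem_nhds (show (0 : ℝ) < 1 by norm_num))).and
    (eventually_ge_atTop b)
  obtain ⟨n, h5, h6⟩ := h4.exists
  refine ⟨n, h6, ?_⟩
  have h7 : (0 : ℝ) < 2 ^ n := by positivity
  rw [← add_div, div_lt_one h7] at h5
  have h8 : n ^ e + e < 2 ^ n := by exact_mod_cast h5
  exact ((hp n).trans (he n)).trans_lt h8

/-! ## Choice of two words -/

theorem card_filter_le {V : Finset (List Bool)} {c : List Bool → List Bool}
    (hc : Function.Injective c) (l : List (List Bool)) :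
    (V.filter fun y => c y ∈ l).card ≤ l.length := by
  have h1 : ((V.filter fun y => c y ∈ l).image c) ⊆ l.toFinset := by
    intro z hz
    obtain ⟨y, hy, rfl⟩ := Finset.mem_image.1 hz
    exact List.mem_toFinset.2 (Finset.mem_filter.1 hy).2
  rw [← Finset.card_image_of_injective _ hc]
  exact (Finset.card_le_card h1).trans (List.toFinset_card_le _)

theorem pick {V : Finset (List Bool)} {q : ℕ} {c0 c1 : List Bool → List Bool}
    (h0 : Function.Injective c0) (h1 : Function.Injective c1)
    (Q1 Q0 : List Bool → List (List Bool)) (hQ1 : ∀ y ∈ V, (Q1 y).length ≤ q)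
    (hQ0 : ∀ y ∈ V, (Q0 y).length ≤ q) (hV : (q + 1) * (q + 1) < V.card) :
    ∃ y1 ∈ V, ∃ y0 ∈ V, c0 y0 ∉ Q1 y1 ∧ c1 y1 ∉ Q0 y0 := by
  obtain ⟨S, hS, hSc⟩ := Finset.exists_subset_card_eq (s := V) (n := q + 1) (by nlinarith)
  let l : List (List Bool) := S.toList.flatMap Q0
  have hl : l.length ≤ (q + 1) * q := by
    have h2 : l.length = (S.toList.map fun y => (Q0 y).length).sum := by
      simp [l, List.length_flatMap]
    rw [h2]
    have h3 := List.sum_le_card_nsmul (S.toList.map fun y => (Q0 y).length) q (by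
      intro x hx
      obtain ⟨y, hy, rfl⟩ := List.mem_map.1 hx
      exact hQ0 y (hS (Finset.mem_toList.1 hy)))
    simpa [hSc] using h3
  have h4 := card_filter_le (V := V) h1 l
  have h5 : ∃ y1 ∈ V, c1 y1 ∉ l := by
    by_contra hcon
    push Not at hcon
    have h6 : V.filter (fun y => c1 y ∈ l) = V := Finset.filter_true_of_mem hcon
    rw [h6] at h4
    nlinarith
  obtain ⟨y1, hy1, hl1⟩ := h5
  have h6 := card_filter_le (V := S) h0 (Q1 y1)
  have h7 : ∃ y0 ∈ S, c0 y0 ∉ Q1 y1 := by
    by_contra hcon
    push Not at hcon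
    have h8 : S.filter (fun y => c0 y ∈ Q1 y1) = S := Finset.filter_true_of_mem hcon
    rw [h8, hSc] at h6
    have := hQ1 y1 hy1
    omega
  obtain ⟨y0, hy0, h8⟩ := h7
  refine ⟨y1, hy1, y0, hS hy0, h8, fun h9 => hl1 ?_⟩
  exact List.mem_flatMap.2 ⟨y0, Finset.mem_toList.2 hy0, h9⟩

/-- the words of length `n` -/
def words (n : ℕ) : Finset (List Bool) :=
  (Finset.univ : Finset (List.Vector Bool n)).image Subtype.val

theorem mem_words {n : ℕ} {y : List Bool} (h : y ∈ words n) : y.length = n := by
  obtain ⟨v, -, rfl⟩ := Finset.mem_image.1 h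
  exact v.2

theorem card_words (n : ℕ) : (words n).card = 2 ^ n := by
  have h : (Finset.univ : Finset (List.Vector Bool n)).card = 2 ^ n := by
    rw [Finset.card_univ, card_vector, Fintype.card_bool]
  rw [words, Finset.card_image_of_injective _ Subtype.val_injective]
  exact h

/-! ## The stage -/

theorem stage (P : Pr) (f : OracleProc (List Bool) (List Bool)) (X : Oracle) (i b : ℕ) :
    ∃ (n : ℕ) (g : Bool → List Bool → Bool), b < i + 3 + n ∧
      (¬ Valid P (put X i n g) ∨ (Promise (put X i n g) i n ∧ Diag P f i (put X i n g) n)) := by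
  by_contra hcon
  push Not at hcon
  obtain ⟨⟨M1, p1⟩, ⟨M2, p2⟩⟩ := P
  obtain ⟨q1, hq1, hb1⟩ := exists_bound M1 p1 f
  obtain ⟨q2, hq2, hb2⟩ := exists_bound M2 p2 f
  let q : ℕ → ℕ := fun n => q1 n + q2 n
  have hq : PB q := by fun_prop
  obtain ⟨n, hbn, hn⟩ := exists_lt_two_pow
    (q := fun n => (q n + 1) * (q n + 1) + (q n + q n)) (by fun_prop) b
  have H : ∀ g, Valid ((M1, p1), (M2, p2)) (put X i n g) ∧ (Promise (put X i n g) i n →
      ¬ Diag ((M1, p1), (M2, p2)) f i (put X i n g) n) := fun g => by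
    have := hcon n g (by omega)
    exact this
  -- the empty region
  let Y0 : Oracle := put X i n fun _ _ => false
  let z := f.run Y0 (zr n)
  let l := queries f Y0 (zr n)
  have hl : l.length ≤ q n := by
    rw [queries_length]
    exact (hb1 n Y0).1.trans (Nat.le_add_right _ _)
  have inj0 : Function.Injective (wd i false) := fun y y' h => (wd_inj h).2.2
  have inj1 : Function.Injective (wd i true) := fun y y' h => (wd_inj h).2.2
  let V : Finset (List Bool) := (words n).filter fun y => wd i false y ∉ l ∧ wd i true y ∉ l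
  have hV : (q n + 1) * (q n + 1) < V.card := by
    have h1 : (words n).card ≤ V.card + (((words n).filter fun y => wd i false y ∈ l).card +
        ((words n).filter fun y => wd i true y ∈ l).card) := by
      refine (Finset.card_le_card (t := V ∪ (((words n).filter fun y => wd i false y ∈ l) ∪
        ((words n).filter fun y => wd i true y ∈ l))) ?_).trans
        ((Finset.card_union_le _ _).trans (Nat.add_le_add_left (Finset.card_union_le _ _) _))
      intro y hy
      simp only [V, Finset.mem_union, Finset.mem_filter, hy, true_and]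
      tauto
    rw [card_words] at h1
    have h2 := card_filter_le (V := words n) inj0 l
    have h3 := card_filter_le (V := words n) inj1 l
    omega
  have hVn : ∀ y ∈ V, y.length = n := fun y hy => mem_words (Finset.mem_filter.1 hy).1
  -- the run of `f`
  have hf : ∀ g : Bool → List Bool → Bool, (∀ c y, y.length = n → g c y = true → y ∈ V) →
      f.run (put X i n g) (zr n) = z := by
    intro g hg
    refine run_congr f _ fun w hw => ?_
    refine put_congr _ _ _ _ _ _ fun c y hy hwy => ?_
    by_contra hne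
    have h1 : g c y = true := by simpa using hne
    have h2 := (Finset.mem_filter.1 (hg c y hy h1)).2
    rw [hwy] at hw
    cases c
    · exact h2.1 hw
    · exact h2.2 hw
  -- side 1
  let g1 : List Bool → Bool → List Bool → Bool := fun y c u => c && decide (u = y)
  have A1 : ∀ y ∈ V, ∃ w : List Bool, w.length ≤ p1.eval z.length ∧
      M1.run (put X i n (g1 y)) (z, w) = true := by
    intro y hy
    have h1 := hf (g1 y) (by
      intro c u _ hu
      simp only [g1, Bool.and_eq_true, decide_eq_true_eq] at hu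
      rw [hu.2]; exact hy)
    have hs : Side true (put X i n (g1 y)) i n :=
      (side_put _ _ _ _ _).2 ⟨y, hVn y hy, by simp [g1]⟩
    have hs' : ¬ Side false (put X i n (g1 y)) i n := by
      rw [side_put]
      rintro ⟨u, -, hu⟩
      simp [g1] at hu
    have h2 := (H (g1 y)).2 ⟨fun _ => hs', fun _ => hs⟩
    rw [Diag, not_not, h1] at h2
    exact h2.1 hs
  let g0 : List Bool → Bool → List Bool → Bool := fun y c u => !c && decide (u = y)
  have A0 : ∀ y ∈ V, ∃ w : List Bool, w.length ≤ p2.eval z.length ∧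
      M2.run (put X i n (g0 y)) (z, w) = true := by
    intro y hy
    have h1 := hf (g0 y) (by
      intro c u _ hu
      simp only [g0, Bool.and_eq_true, decide_eq_true_eq] at hu
      rw [hu.2]; exact hy)
    have hs : Side false (put X i n (g0 y)) i n :=
      (side_put _ _ _ _ _).2 ⟨y, hVn y hy, by simp [g0]⟩
    have hs' : ¬ Side true (put X i n (g0 y)) i n := by
      rw [side_put]
      rintro ⟨u, -, hu⟩
      simp [g0] at hu
    have h2 := (H (g0 y)).2 ⟨fun h => absurd h hs', fun h => absurd hs h⟩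
    rw [Diag, not_not, h1] at h2
    have h3 : ¬ Accepts M1 p1 (put X i n (g0 y)) z := fun h => hs' (h2.2 h)
    have h4 := (H (g0 y)).1 z
    by_contra h5
    exact h3 (h4.2 h5)
  choose! w1 hw1 using A1
  choose! w0 hw0 using A0
  obtain ⟨y1, hy1, y0, hy0, hn1, hn0⟩ := pick (V := V) (q := q n) inj0 inj1
    (fun y => queries M1 (put X i n (g1 y)) (z, w1 y))
    (fun y => queries M2 (put X i n (g0 y)) (z, w0 y))
    (fun y hy => by
      rw [queries_length]
      exact ((hb1 n Y0).2 (w1 y) (hw1 y hy).1).trans (Nat.le_add_right _ _))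
    (fun y hy => by
      rw [queries_length]
      exact ((hb2 n Y0).2 (w0 y) (hw0 y hy).1).trans (Nat.le_add_left _ _)) hV
  let g2 : Bool → List Bool → Bool := fun c u => g1 y1 c u || g0 y0 c u
  have e1 : M1.run (put X i n g2) (z, w1 y1) = true := by
    rw [run_congr M1 (X := put X i n (g1 y1)) (z, w1 y1), (hw1 y1 hy1).2]
    intro w hw
    refine put_congr _ _ _ _ _ _ fun c y hy hwy => ?_
    cases c
    · have h1 : g0 y0 false y = false := by
        simp only [g0, Bool.not_false, Bool.true_and, decide_eq_false_iff_not]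
        rintro rfl
        exact hn1 (hwy ▸ hw)
      simp [g2, h1]
    · simp [g2, g0]
  have e0 : M2.run (put X i n g2) (z, w0 y0) = true := by
    rw [run_congr M2 (X := put X i n (g0 y0)) (z, w0 y0), (hw0 y0 hy0).2]
    intro w hw
    refine put_congr _ _ _ _ _ _ fun c y hy hwy => ?_
    cases c
    · simp [g2, g1]
    · have h1 : g1 y1 true y = false := by
        simp only [g1, Bool.true_and, decide_eq_false_iff_not]
        rintro rfl
        exact hn0 (hwy ▸ hw)
      simp [g2, h1]
  have h1 : Accepts M1 p1 (put X i n g2) z := ⟨w1 y1, (hw1 y1 hy1).1, e1⟩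
  have h2 : Accepts M2 p2 (put X i n g2) z := ⟨w0 y0, (hw0 y0 hy0).1, e0⟩
  exact ((H g2).1 z).1 h1 h2

end Pool.Agent.Helper8.Sip
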