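import Mathlib
import Pool.Agent.Helper8.Sip.Stage
import Pool.Agent.Helper20.Cons.Defs

set_option autoImplicit false

/-!
# Oracles relative to which NP ∩ coNP has no complete language, keeping all separations
-/

namespace Pool.Agent.Helper8.Sip

open Pool.Agent.Helper22 N487b59b3 N68a2faeb N793a5b8e Filter Topology
open Pool.Agent.Helper20.Cons (join)

/-! ## Finite changes -/

theorem FP_finite_change {Q Q' : List Bool → Bool} (hQ : FP Q) (W : List (List Bool))
    (h : ∀ q, q ∉ W → Q' q = Q q) : FP Q' := by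
  have h1 : FP fun q : List Bool => if wmem W q then wmem (W.filter Q') q else Q q :=
    FP.ite (FP.wmem (FP.const _) FP.id) (FP.wmem (FP.const _) FP.id) hQ
  refine (congrArg FP (funext fun q => ?_)).mp h1
  by_cases hq : q ∈ W
  · rw [if_pos ((wmem_iff _ _).2 hq), Bool.eq_iff_iff, wmem_iff, List.mem_filter]
    exact ⟨fun h => h.2, fun h => ⟨hq, h⟩⟩
  · rw [if_neg fun h => hq ((wmem_iff _ _).1 h), h q hq]

/-- the oracle is the join of `B` with a language in P -/
def Easy (B X : Oracle) : Prop := ∃ Q : List Bool → Bool, FP Q ∧ X = join B Q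

theorem easy_put {B X : Oracle} {i n : ℕ} {g : Bool → List Bool → Bool} (h : Easy B X) :
    Easy B (put X i n g) := by
  obtain ⟨Q, hQ, rfl⟩ := h
  refine ⟨fun q => put (join B Q) i n g (true :: q), ?_, ?_⟩
  · refine FP_finite_change hQ ((words n).toList.flatMap fun y =>
      [(wd i true y).tail, (wd i false y).tail]) fun q hq => ?_
    rw [put_of_not]
    · rfl
    · intro c y hy h
      refine hq (List.mem_flatMap.2 ⟨y, Finset.mem_toList.2 ?_, ?_⟩)
      · exact Finset.mem_image.2 ⟨(⟨y, hy⟩ : List.Vector Bool n),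
          Finset.mem_univ (α := List.Vector Bool n) _, rfl⟩
      · rw [← List.tail_cons (a := true) (as := q), h]
        cases c <;> simp
  · funext w
    match w with
    | [] =>
      rw [put_of_not]
      · rfl
      · intro c y _ h
        exact absurd h (by simp [wd])
    | false :: q =>
      rw [put_of_not]
      · rfl
      · intro c y _ h
        exact absurd h (by simp [wd])
    | true :: q => rfl

/-! ## Stages -/

/-- a task: a pair of verifiers and a reduction -/
abbrev Task : Type := Pr × OracleProc (List Bool) (List Bool)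

/-- the pair is invalid for all oracles agreeing with `X` up to `b` -/
def Dead (P : Pr) (s : Oracle × ℕ) : Prop := ∀ Z, Agree s.2 s.1 Z → ¬ Valid P Z

/-- the invariant -/
def Inv (B : Oracle) (idx : Pr → ℕ) (s : Oracle × ℕ) : Prop :=
  Easy B s.1 ∧ ∀ P n, Dead P s ∨ Promise s.1 (idx P) n

/-- the task is done -/
def Done (idx : Pr → ℕ) (t : Task) (s : Oracle × ℕ) : Prop :=
  Dead t.1 s ∨ ∃ n, ∀ Z, Agree s.2 s.1 Z → Diag t.1 t.2 (idx t.1) Z n

theorem dead_mono {P : Pr} {s s' : Oracle × ℕ} (h : Dead P s) (h1 : Agree s.2 s.1 s'.1)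
    (h2 : s.2 ≤ s'.2) : Dead P s' := fun Z hZ => h Z (h1.trans hZ h2)

theorem inv_mono {B : Oracle} {idx : Pr → ℕ} {X : Oracle} {b b' : ℕ} (h : Inv B idx (X, b))
    (hb : b ≤ b') : Inv B idx (X, b') :=
  ⟨h.1, fun P n => (h.2 P n).imp
    (fun h1 => dead_mono (s := (X, b)) (s' := (X, b')) h1 (Agree.refl _ _) hb) id⟩

theorem eventually_invalid {P : Pr} {X : Oracle} (h : ¬ Valid P X) :
    ∀ᶠ Y in 𝓝 X, ¬ Valid P Y := by
  rw [Valid, not_forall] at h
  obtain ⟨z, hz⟩ := h
  filter_upwards [eventually_accepts P.1.1 P.1.2 X z, eventually_accepts P.2.1 P.2.2 X z]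
    with Y h1 h2 h3
  exact hz (by rw [← h1, ← h2]; exact h3 z)

theorem eventually_side (c : Bool) (X : Oracle) (i n : ℕ) :
    ∀ᶠ Y in 𝓝 X, (Side c Y i n ↔ Side c X i n) := by
  have hfin : {y : List Bool | y.length = n}.Finite := List.finite_length_eq _ _
  have h := (Filter.eventually_all_finite hfin (l := 𝓝 X)
    (p := fun y Y => Y (wd i c y) = X (wd i c y))).2 fun y _ => eventually_oracle X _
  filter_upwards [h] with Y hY
  constructor
  · rintro ⟨y, hy, h1⟩
    exact ⟨y, hy, by rw [← hY y hy]; exact h1⟩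
  · rintro ⟨y, hy, h1⟩
    exact ⟨y, hy, by rw [hY y hy]; exact h1⟩

theorem eventually_diag {P : Pr} {f : OracleProc (List Bool) (List Bool)} {i n : ℕ} {X : Oracle}
    (h : Diag P f i X n) : ∀ᶠ Y in 𝓝 X, Diag P f i Y n := by
  filter_upwards [eventually_side true X i n, eventually_run f X (zr n),
    eventually_accepts P.1.1 P.1.2 X (f.run X (zr n))] with Y h1 h2 h3
  rw [Diag, h1, h2, h3]
  exact h

theorem step (B : Oracle) (idx : Pr → ℕ) (hidx : Function.Injective idx)
    (t : Task) (s : Oracle × ℕ) (hs : Inv B idx s) : ∃ s' : Oracle × ℕ, Agree s.2 s.1 s'.1 ∧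
      s.2 < s'.2 ∧ Inv B idx s' ∧ Done idx t s' := by
  obtain ⟨X, b⟩ := s
  by_cases hd : Dead t.1 (X, b)
  · exact ⟨(X, b + 1), Agree.refl _ _, Nat.lt_succ_self _, inv_mono hs (Nat.le_succ _),
      Or.inl (dead_mono hd (Agree.refl _ _) (Nat.le_succ _))⟩
  · obtain ⟨hB, hs⟩ := hs
    obtain ⟨n, g, hb, h⟩ := stage t.1 t.2 X (idx t.1) b
    have hag : Agree b X (put X (idx t.1) n g) := agree_put _ _ _ _ _ hb
    have hprom : ∀ P m, (P ≠ t.1 ∨ m ≠ n) → Promise X (idx P) m →
        Promise (put X (idx t.1) n g) (idx P) m := by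
      intro P m hne hP
      have h1 : idx P ≠ idx t.1 ∨ m ≠ n := by
        rcases hne with h | h
        · exact Or.inl fun h2 => h (hidx h2)
        · exact Or.inr h
      rw [Promise, side_put_ne _ _ _ _ _ h1, side_put_ne _ _ _ _ _ h1]
      exact hP
    rcases h with h | ⟨h1, h2⟩
    · obtain ⟨b1, hb1⟩ := exists_agree (eventually_invalid h)
      have hdead : Dead t.1 (put X (idx t.1) n g, max b1 (b + 1)) := fun Z hZ =>
        hb1 Z (hZ.mono (le_max_left _ _))
      refine ⟨(put X (idx t.1) n g, max b1 (b + 1)), hag, ?_, ⟨easy_put hB,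
        fun P m => ?_⟩, Or.inl hdead⟩
      · exact lt_of_lt_of_le (Nat.lt_succ_self _) (le_max_right _ _)
      · by_cases hP : P = t.1
        · exact Or.inl (hP ▸ hdead)
        · rcases hs P m with h3 | h3
          · exact Or.inl (dead_mono h3 hag ((Nat.le_succ _).trans (le_max_right _ _)))
          · exact Or.inr (hprom P m (Or.inl hP) h3)
    · obtain ⟨b1, hb1⟩ := exists_agree (eventually_diag h2)
      refine ⟨(put X (idx t.1) n g, max b1 (b + 1)), hag, ?_, ⟨easy_put hB,
        fun P m => ?_⟩, Or.inr ⟨n, fun Z hZ => hb1 Z (hZ.mono (le_max_left _ _))⟩⟩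
      · exact lt_of_lt_of_le (Nat.lt_succ_self _) (le_max_right _ _)
      · by_cases hP : P = t.1 ∧ m = n
        · obtain ⟨rfl, rfl⟩ := hP
          exact Or.inr h1
        · have hP' : P ≠ t.1 ∨ m ≠ n := by tauto
          rcases hs P m with h3 | h3
          · exact Or.inl (dead_mono h3 hag ((Nat.le_succ _).trans (le_max_right _ _)))
          · exact Or.inr (hprom P m hP' h3)

/-- the first oracle: `B`, and all the words of side 0 -/
def start (B : Oracle) : Oracle := join B fun q => !(q.headD true)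

theorem easy_start (B : Oracle) : Easy B (start B) :=
  ⟨_, (FP.headD FP.id true).not, rfl⟩

theorem promise_start (B : Oracle) (i n : ℕ) : Promise (start B) i n := by
  have h1 : Side false (start B) i n := ⟨zr n, by simp, rfl⟩
  have h2 : ¬ Side true (start B) i n := by
    rintro ⟨y, -, hy⟩
    have h3 : start B (wd i true y) = false := rfl
    rw [h3] at hy
    exact absurd hy (by decide)
  exact ⟨fun h => absurd h h2, fun h => absurd h1 h⟩

/-! ## The verifiers -/

/-- the verifier of side `c` of the regions of `i` -/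
def ask (i : ℕ) (c : Bool) : OracleProc (List Bool × List Bool) Bool where
  clock := fun _ => [true]
  query := fun a => wd i c a.1.2
  out := fun a => a.2.headD false && (decide (a.1.1.length ≤ a.1.2.length) &&
    decide (a.1.2.length ≤ a.1.1.length))
  clock_poly := (isPolyTime_iff _).2 (FP.const _)
  query_poly := (isPolyTime_iff _).2 (by
    have h : FP fun a : (List Bool × List Bool) × List Bool =>
        (true :: c :: List.replicate i true ++ [false]) ++ a.1.2 :=
      FP.append (FP.const _) (by fun_prop)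
    refine (congrArg FP (funext fun a => ?_)).mp h
    simp [wd])
  out_poly := (isPolyTime_iff _).2 (by
    have h1 : FP fun a : (List Bool × List Bool) × List Bool => a.2.headD false :=
      FP.headD (by fun_prop) _
    have h2 : FP fun a : (List Bool × List Bool) × List Bool =>
        decide (a.1.1.length ≤ a.1.2.length) := FP.length_le (by fun_prop) (by fun_prop)
    have h3 : FP fun a : (List Bool × List Bool) × List Bool =>
        decide (a.1.2.length ≤ a.1.1.length) := FP.length_le (by fun_prop) (by fun_prop)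
    exact h1.and (h2.and h3))

theorem ask_run (i : ℕ) (c : Bool) (X : Oracle) (x w : List Bool) :
    (ask i c).run X (x, w) = true ↔ w.length = x.length ∧ X (wd i c w) = true := by
  have h : (ask i c).run X (x, w) = (X (wd i c w) && (decide (x.length ≤ w.length) &&
    decide (w.length ≤ x.length))) := rfl
  rw [h]
  simp only [Bool.and_eq_true, decide_eq_true_eq]
  constructor
  · rintro ⟨h1, h2, h3⟩
    exact ⟨le_antisymm h3 h2, h1⟩
  · rintro ⟨h1, h2⟩
    exact ⟨h2, h1.ge, h1.le⟩

theorem accepts_ask (i : ℕ) (c : Bool) (X : Oracle) (x : List Bool) :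
    Accepts (ask i c) Polynomial.X X x ↔ Side c X i x.length := by
  rw [Accepts, Side]
  simp only [Polynomial.eval_X, ask_run]
  constructor
  · rintro ⟨w, -, h1, h2⟩
    exact ⟨w, h1, h2⟩
  · rintro ⟨w, h1, h2⟩
    exact ⟨w, h1.le, h1, h2⟩

/-! ## The operators -/

section

universe u v

variable {ι : Type u} {γ : Type v}

/-- the value of the operator is not `T`, or `T` is obtained from a language in P -/
def Handled (B : Oracle) (Psi : ι → Oracle → List Bool → γ) (t : ι × (List Bool → γ))
    (s : Oracle × ℕ) : Prop :=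
  (∃ u, ∀ Z, Agree s.2 s.1 Z → Psi t.1 Z u ≠ t.2 u) ∨
    ∃ Q : List Bool → Bool, FP Q ∧ Psi t.1 (join B Q) = t.2

theorem handle {B : Oracle} {idx : Pr → ℕ} {Psi : ι → Oracle → List Bool → γ}
    (hPsi : ∀ j X u, ∀ᶠ Y in 𝓝 X, Psi j Y u = Psi j X u) (t : ι × (List Bool → γ))
    (s : Oracle × ℕ) (hs : Inv B idx s) : ∃ s' : Oracle × ℕ, Agree s.2 s.1 s'.1 ∧
      s.2 < s'.2 ∧ Inv B idx s' ∧ Handled B Psi t s' := by
  obtain ⟨X, b⟩ := s
  by_cases h : Psi t.1 X = t.2
  · obtain ⟨Q, hQ, hX⟩ := hs.1
    exact ⟨(X, b + 1), Agree.refl _ _, Nat.lt_succ_self _, inv_mono hs (Nat.le_succ _),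
      Or.inr ⟨Q, hQ, by rw [← hX]; exact h⟩⟩
  · have h1 : ∃ u, Psi t.1 X u ≠ t.2 u := by
      by_contra hcon
      push Not at hcon
      exact h (funext hcon)
    obtain ⟨u, hu⟩ := h1
    obtain ⟨b1, hb1⟩ := exists_agree (hPsi t.1 X u)
    refine ⟨(X, max b1 (b + 1)), Agree.refl _ _,
      lt_of_lt_of_le (Nat.lt_succ_self _) (le_max_right _ _),
      inv_mono hs ((Nat.le_succ _).trans (le_max_right _ _)), Or.inl ⟨u, fun Z hZ => ?_⟩⟩
    rw [hb1 Z (hZ.mono (le_max_left _ _))]
    exact hu

/-! ## The limit -/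

/-- **Conservation**: for every oracle `B`, all countable families of continuous operators and all
countable sets `BB` of their possible values there is `C` such that, relative to the join of `B`
and `C`, NP ∩ coNP has no complete language, and every value in `BB` of one of the operators at
this join is a value at the join of `B` and a language in P. -/
theorem exists_no_complete_conservative (B : Oracle) [Countable ι]
    (Psi : ι → Oracle → List Bool → γ) (hPsi : ∀ j X u, ∀ᶠ Y in 𝓝 X, Psi j Y u = Psi j X u)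
    (BB : Set (List Bool → γ)) (hBB : BB.Countable) :
    ∃ C : Oracle, join B C ∉ HasCompleteRel ∧ ∀ j, Psi j (join B C) ∈ BB →
      ∃ Q : List Bool → Bool, IsPolyTime Q ∧ Psi j (join B Q) = Psi j (join B C) := by
  classical
  obtain ⟨idx, hidx⟩ := exists_injective_nat Pr
  have := hBB.to_subtype
  have : Nonempty (Task ⊕ (ι × BB)) :=
    ⟨Sum.inl ⟨((ask 0 true, 0), (ask 0 true, 0)), OracleProc.ofFP (fun x => x) FP.id⟩⟩
  obtain ⟨e, he⟩ := exists_surjective_nat (Task ⊕ (ι × BB))
  -- the sequence of oracles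
  let Ok : Task ⊕ (ι × BB) → Oracle × ℕ → Prop := fun t s =>
    match t with
    | Sum.inl t => Done idx t s
    | Sum.inr t => Handled B Psi (t.1, t.2.1) s
  have hstep : ∀ (k : ℕ) (s : {s : Oracle × ℕ // Inv B idx s}),
      ∃ s' : {s : Oracle × ℕ // Inv B idx s},
      Agree s.1.2 s.1.1 s'.1.1 ∧ s.1.2 < s'.1.2 ∧ Ok (e k) s'.1 := by
    rintro k ⟨s, hs⟩
    rcases hek : e k with t | t
    · obtain ⟨s', h1, h2, h3, h4⟩ := step B idx hidx t s hs
      exact ⟨⟨s', h3⟩, h1, h2, h4⟩
    · obtain ⟨s', h1, h2, h3, h4⟩ := handle hPsi (t.1, t.2.1) s hs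
      exact ⟨⟨s', h3⟩, h1, h2, h4⟩
  choose nxt hn1 hn2 hn3 using hstep
  let S : ℕ → {s : Oracle × ℕ // Inv B idx s} := fun k =>
    Nat.rec (⟨(start B, 0), ⟨easy_start B, fun P n => Or.inr (promise_start _ _ _)⟩⟩)
      (fun k s => nxt k s) k
  have hS : ∀ k, S (k + 1) = nxt k (S k) := fun k => rfl
  have hb : ∀ k, k ≤ (S k).1.2 := by
    intro k
    induction k with
    | zero => exact Nat.zero_le _
    | succ k ih => rw [hS]; exact lt_of_le_of_lt ih (hn2 _ _)
  have hbm : ∀ k m, k ≤ m → (S k).1.2 ≤ (S m).1.2 ∧ Agree (S k).1.2 (S k).1.1 (S m).1.1 := by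
    intro k m hkm
    induction m, hkm using Nat.le_induction with
    | base => exact ⟨le_rfl, Agree.refl _ _⟩
    | succ m hkm ih =>
      rw [hS]
      exact ⟨ih.1.trans (hn2 _ _).le, ih.2.trans (hn1 _ _) ih.1⟩
  let X : Oracle := fun w => (S w.length).1.1 w
  have hX : ∀ k, Agree (S k).1.2 (S k).1.1 X := by
    intro k w hw
    show (S w.length).1.1 w = (S k).1.1 w
    rcases le_total k w.length with h | h
    · exact (hbm _ _ h).2 w hw
    · exact ((hbm _ _ h).2 w (hb _)).symm
  have hXB : join B (fun q => X (true :: q)) = X := by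
    funext w
    obtain ⟨Q, -, hQ⟩ := (S w.length).2.1
    match w with
    | [] => exact (congrFun hQ []).symm
    | false :: q => exact (congrFun hQ (false :: q)).symm
    | true :: q => rfl
  refine ⟨fun q => X (true :: q), ?_, ?_⟩
  swap
  · rw [hXB]
    intro j hj
    obtain ⟨k, hk⟩ := he (Sum.inr (j, ⟨Psi j X, hj⟩))
    have hXk := hX (k + 1)
    have h3 : Handled B Psi (j, Psi j X) (S (k + 1)).1 := by
      have h4 := hn3 k (S k)
      rw [hk] at h4
      exact h4
    rcases h3 with ⟨u, h3⟩ | ⟨Q, hQ, h3⟩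
    · exact absurd rfl (h3 X hXk)
    · exact ⟨Q, (isPolyTime_iff _).2 hQ, h3⟩
  rw [hXB]
  rintro ⟨L, ⟨⟨p1, M1, h1⟩, ⟨p2, M2, h2⟩⟩, hL⟩
  let P : Pr := ((M1, p1), (M2, p2))
  have hv : Valid P X := fun z => by
    show Accepts M1 p1 X z ↔ ¬ Accepts M2 p2 X z
    rw [← h1, ← h2, compl_true, not_not]
  have hprom : ∀ n, Promise X (idx P) n := by
    intro n
    have h3 := (S (idx P + 3 + n)).2.2 P n
    rcases h3 with h3 | h3
    · exact absurd hv (h3 X (hX _))
    · have h4 : idx P + 3 + n ≤ (S (idx P + 3 + n)).1.2 := hb _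
      rw [Promise, side_agree (hX _) h4, side_agree (hX _) h4]
      exact h3
  let D : DecisionProblem := fun x => decide (Side true X (idx P) x.length)
  have hD : D ∈ NPo X ∩ coNPo X := by
    constructor
    · refine ⟨Polynomial.X, ask (idx P) true, fun x => ?_⟩
      rw [accepts_ask]
      simp only [D, decide_eq_true_eq]
    · refine ⟨Polynomial.X, ask (idx P) false, fun x => ?_⟩
      rw [accepts_ask, compl_true]
      simp only [D, decide_eq_true_eq]
      have h3 : Side true X (idx P) x.length ↔ ¬ Side false X (idx P) x.length := hprom _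
      rw [h3, not_not]
  obtain ⟨f, hf⟩ := hL D hD
  obtain ⟨k, hk⟩ := he (Sum.inl (P, f))
  have hXk := hX (k + 1)
  have h3 : Done idx (P, f) (S (k + 1)).1 := by
    have h4 := hn3 k (S k)
    rw [hk] at h4
    exact h4
  rcases h3 with h3 | ⟨n, h3⟩
  · exact h3 X hXk hv
  · have h4 := h3 X hXk
    apply h4
    have h5 : decide (Side true X (idx P) (zr n).length) = L (f.run X (zr n)) := hf (zr n)
    rw [zr_length] at h5
    show Side true X (idx P) n ↔ Accepts M1 p1 X (f.run X (zr n))
    rw [← h1, ← h5, decide_eq_true_eq]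

end

/-- **Sipser's theorem**, relative to any oracle `B`: for some `C`, NP ∩ coNP relative to the join
of `B` and `C` has no complete language. -/
theorem exists_no_complete (B : Oracle) : ∃ C : Oracle, join B C ∉ HasCompleteRel := by
  obtain ⟨C, hC, -⟩ := exists_no_complete_conservative (ι := Empty) (γ := Bool) B
    (fun j => j.elim) (fun j => j.elim) ∅ Set.countable_empty
  exact ⟨C, hC⟩

end Pool.Agent.Helper8.Sip
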