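import Mathlib
import Pool.Agent.Helper8.Sip.Stage
import Pool.Agent.Helper20.Cons.Defs
import Pool.Agent.Helper22.Cons.SimJoin
import Pool.Agent.Helper49.Cons.Bind
import Pool.Agent.Helper49.Cons.Acc

set_option autoImplicit false

/-!
# Words coded in blocks of a tally oracle
-/

namespace Pool.Agent.Helper8.Sip

open Pool.Agent.Helper22 N487b59b3 N68a2faeb N793a5b8e Filter Topology
open Pool.Agent.Helper20.Cons (Tally)

/-! ## Positions -/

/-- the number of the pair `(i, n)` -/
def cc (i n : ℕ) : ℕ := (i + n) ^ 2 + i

/-- the first position of the block `(i, n)`; it has the positions `base i n + k`, `k ≤ n` -/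
def base (i n : ℕ) : ℕ := cc i n ^ 2

theorem le_cc (i n : ℕ) : n ≤ cc i n := by
  unfold cc
  nlinarith

theorem le_base (i n : ℕ) : n ≤ base i n := by
  have := le_cc i n
  unfold base
  nlinarith

theorem cc_inj {i j n m : ℕ} (h : cc i n = cc j m) : i = j ∧ n = m := by
  unfold cc at h
  rcases lt_trichotomy (i + n) (j + m) with h1 | h1 | h1
  · exfalso; nlinarith
  · rw [h1] at h
    omega
  · exfalso; nlinarith

theorem base_inj {i j n m k l : ℕ} (hk : k ≤ n) (hl : l ≤ m) (h : base i n + k = base j m + l) :
    i = j ∧ n = m ∧ k = l := by
  have h1 := le_cc i n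
  have h2 := le_cc j m
  have h3 : cc i n = cc j m := by
    unfold base at h
    rcases lt_trichotomy (cc i n) (cc j m) with h4 | h4 | h4
    · exfalso; nlinarith
    · exact h4
    · exfalso; nlinarith
  obtain ⟨rfl, rfl⟩ := cc_inj h3
  exact ⟨rfl, rfl, by omega⟩

/-- `base i` as a polynomial -/
noncomputable def basePoly (i : ℕ) : Polynomial ℕ :=
  ((Polynomial.C i + Polynomial.X) ^ 2 + Polynomial.C i) ^ 2

theorem basePoly_eval (i n : ℕ) : (basePoly i).eval n = base i n := by
  simp [basePoly, base, cc]

/-! ## Blocks -/

/-- the oracle whose block `(i, |z|)` has the flag and the word `z` -/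
def blk (i : ℕ) (z q : List Bool) : Bool :=
  weq q (un q.length) && (decide (base i z.length ≤ q.length) &&
    ((true :: z).drop (q.drop (base i z.length)).length).headD false)

theorem blk_un (i : ℕ) (z : List Bool) (m : ℕ) : blk i z (un m) = true ↔
    base i z.length ≤ m ∧ ((true :: z).drop (m - base i z.length)).headD false = true := by
  have h : weq (un m) (un (un m).length) = true := (weq_iff _ _).2 (by rw [un_length])
  rw [blk, h, Bool.true_and, Bool.and_eq_true, decide_eq_true_eq, un_length, List.length_drop,
    un_length]

theorem blk_tally {i : ℕ} {z q : List Bool} (h : blk i z q = true) : q = un q.length := by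
  rw [blk, Bool.and_eq_true] at h
  exact (weq_iff _ _).1 h.1

theorem headD_drop_false {l : List Bool} {m : ℕ} (h : l.length ≤ m) :
    (l.drop m).headD false = false := by
  rw [List.drop_eq_nil_of_le h]
  rfl

theorem blk_length {i : ℕ} {z q : List Bool} (h : blk i z q = true) :
    ∃ k, k ≤ z.length ∧ q.length = base i z.length + k := by
  rw [blk_tally h, blk_un] at h
  obtain ⟨h1, h2⟩ := h
  refine ⟨q.length - base i z.length, ?_, by omega⟩
  by_contra hcon
  rw [headD_drop_false (by rw [List.length_cons]; omega)] at h2
  exact absurd h2 (by decide)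

@[fun_prop]
theorem FP.blk {α : Type} [N487b59b3 α] (i : ℕ) {f g : α → List Bool} (hf : FP f) (hg : FP g) :
    FP fun a => blk i (f a) (g a) := by
  have h0 : FP fun a => un (base i (f a).length) := by
    have := FP.un_poly hf (basePoly i)
    simpa only [basePoly_eval] using this
  have h1 : FP fun a => weq (g a) (un (g a).length) := FP.weq hg (FP.un_length hg)
  have h2 : FP fun a => decide ((un (base i (f a).length)).length ≤ (g a).length) :=
    FP.length_le h0 hg
  have h3 : FP fun a => (g a).drop (un (base i (f a).length)).length := FP.drop hg h0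
  have h4 : FP fun a => ((true :: f a).drop ((g a).drop (un (base i (f a).length)).length).length)
      |>.headD false := FP.headD (FP.drop ((FP.const true).cons hf) h3) _
  have h5 := h1.and (h2.and h4)
  simp only [un_length] at h5
  exact h5

/-! ## Reading blocks -/

/-- the flag of the block `(i, n)` -/
def flag (T : Oracle) (i n : ℕ) : Bool := T (un (base i n))

/-- the word of the block `(i, n)` -/
def word (T : Oracle) (i n : ℕ) : List Bool :=
  (List.range n).map fun k => T (un (base i n + (k + 1)))

@[simp] theorem word_length (T : Oracle) (i n : ℕ) : (word T i n).length = n := by simp [word]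

/-- `t` with the block of `z` added -/
def add (t : Oracle) (i : ℕ) (z : List Bool) : Oracle := fun q => t q || blk i z q

theorem word_congr {T T' : Oracle} {i n : ℕ}
    (h : ∀ k, k ≤ n → T' (un (base i n + k)) = T (un (base i n + k))) :
    flag T' i n = flag T i n ∧ word T' i n = word T i n := by
  refine ⟨h 0 (Nat.zero_le _), ?_⟩
  rw [word, word]
  refine List.map_congr_left fun k hk => ?_
  have := List.mem_range.1 hk
  exact h (k + 1) (by omega)

theorem add_other (t : Oracle) {i j : ℕ} {z : List Bool} {m : ℕ} (h : j ≠ i ∨ m ≠ z.length) :
    flag (add t i z) j m = flag t j m ∧ word (add t i z) j m = word t j m := by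
  refine word_congr fun k hk => ?_
  have h1 : blk i z (un (base j m + k)) = false := by
    rw [Bool.eq_false_iff]
    intro h2
    obtain ⟨l, hl, h3⟩ := blk_length h2
    rw [un_length] at h3
    obtain ⟨rfl, rfl, -⟩ := base_inj hk hl h3
    rcases h with h | h
    · exact h rfl
    · exact h rfl
  rw [add, h1, Bool.or_false]

theorem add_self (t : Oracle) {i b : ℕ} {z : List Bool} (hb : b < base i z.length)
    (ht : ∀ q, t q = true → q.length ≤ b) :
    flag (add t i z) i z.length = true ∧ word (add t i z) i z.length = z := by
  have h0 : ∀ k, t (un (base i z.length + k)) = false := by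
    intro k
    rw [Bool.eq_false_iff]
    intro h
    have := ht _ h
    rw [un_length] at this
    omega
  constructor
  · have h1 : blk i z (un (base i z.length)) = true := by
      rw [blk_un]
      simp
    rw [flag, add, h1, Bool.or_true]
  · refine List.ext_getElem (by simp) fun k hk hk' => ?_
    have h1 : (word (add t i z) i z.length)[k] =
        add t i z (un (base i z.length + (k + 1))) := by
      simp only [word, List.getElem_map, List.getElem_range]
    rw [h1, add, h0, Bool.false_or, Bool.eq_iff_iff, blk_un]
    have h2 : base i z.length + (k + 1) - base i z.length = k + 1 := by omega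
    rw [h2]
    simp only [List.drop_succ_cons]
    have h3 : (z.drop k).headD false = z[k] := by
      rw [List.drop_eq_getElem_cons hk']
      rfl
    rw [h3]
    constructor
    · exact fun h => h.2
    · exact fun h => ⟨by omega, h⟩

theorem add_tally {t : Oracle} (h : Tally t) (i : ℕ) (z : List Bool) : Tally (add t i z) := by
  intro q hq b hb
  rw [add, Bool.or_eq_true] at hq
  rcases hq with hq | hq
  · exact h q hq b hb
  · rw [blk_tally hq, un] at hb
    exact List.eq_of_mem_replicate hb

theorem add_support {t : Oracle} {b : ℕ} (ht : ∀ q, t q = true → q.length ≤ b) (i : ℕ)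
    (z : List Bool) : ∀ q, add t i z q = true → q.length ≤ max b (base i z.length + z.length) := by
  intro q hq
  rw [add, Bool.or_eq_true] at hq
  rcases hq with hq | hq
  · exact (ht q hq).trans (le_max_left _ _)
  · obtain ⟨k, hk, h⟩ := blk_length hq
    exact le_max_of_le_right (by omega)

theorem agree_add (t : Oracle) {b i : ℕ} {z : List Bool} (hb : b < base i z.length) :
    Agree b t (add t i z) := by
  intro q hq
  have h1 : blk i z q = false := by
    rw [Bool.eq_false_iff]
    intro h
    obtain ⟨k, -, h⟩ := blk_length h
    omega
  rw [add, h1, Bool.or_false]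

end Pool.Agent.Helper8.Sip
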