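import Mathlib
import Pool.Agent.Helper8.Sip.Block

set_option autoImplicit false

/-!
# The stage lemma for tally oracles
-/

namespace Pool.Agent.Helper8.Sip

open Pool.Agent.Helper22 N487b59b3 N68a2faeb N793a5b8e Filter Topology
open Pool.Agent.Helper20.Cons (Tally)

/-- the join with `A` -/
abbrev J (A T : Oracle) : Oracle := Pool.Agent.Helper20.Cons.join A T

theorem isJoin_J (A T : Oracle) : IsJoin (J A T) A T := ⟨rfl, fun _ => rfl, fun _ => rfl⟩

theorem agree_J {A T T' : Oracle} {b : ℕ} (h : Agree b T T') : Agree b (J A T) (J A T') := by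
  intro w hw
  match w with
  | [] => rfl
  | false :: q => rfl
  | true :: q =>
    exact h q (by rw [List.length_cons] at hw; omega)

theorem FP_of_support {t : Oracle} {b : ℕ} (ht : ∀ q, t q = true → q.length ≤ b) : FP t := by
  obtain ⟨l, hl⟩ : ∃ l : List (List Bool), ∀ q, t q = true ↔ q ∈ l := by
    have hfin : {q : List Bool | t q = true}.Finite :=
      (List.finite_length_le Bool b).subset fun q hq => ht q hq
    exact ⟨hfin.toFinset.toList, fun q => by simp⟩
  have h : FP fun q : List Bool => wmem l q := FP.wmem (FP.const _) FP.id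
  refine (congrArg FP (funext fun q => ?_)).mp h
  rw [Bool.eq_iff_iff, wmem_iff, hl]

theorem exists_out_bound (f : OracleProc (List Bool) (List Bool)) : ∃ q : Polynomial ℕ,
    ∀ (n : ℕ) (Y : Oracle), (f.run Y (zr n)).length ≤ q.eval n := by
  obtain ⟨B1, hB1, hm1, h1⟩ := FP.bound ((isPolyTime_iff _).1 f.clock_poly)
  obtain ⟨B2, hB2, hm2, h2⟩ := FP.bound ((isPolyTime_iff _).1 f.out_poly)
  let u : ℕ → ℕ := fun n => B1 (3 * n)
  let v : ℕ → ℕ := fun n => B2 (2 * (3 * n) + 1 + 3 * u n)
  have hu : PB u := hB1.comp (by fun_prop)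
  have hv : PB v := hB2.comp (by fun_prop)
  obtain ⟨q, hq⟩ := hv
  refine ⟨q, fun n Y => le_trans ?_ (hq n)⟩
  have e1 : (f.clock (zr n)).length ≤ u n := by
    have := h1 (zr n)
    simp only [sz_bits, zr_length] at this
    show _ ≤ B1 (3 * n)
    omega
  have h4 := h2 (zr n, f.answers Y (zr n) (f.clock (zr n)).length)
  have h5 : sz (zr n, f.answers Y (zr n) (f.clock (zr n)).length) ≤
      2 * (3 * n) + 1 + 3 * u n := by
    simp only [sz_pair, sz_bits, zr_length, OracleProc.answers_length]
    omega
  have h6 := h4.trans (hm2 h5)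
  rw [sz_bits] at h6
  show _ ≤ B2 (2 * (3 * n) + 1 + 3 * u n)
  have h7 : f.out (zr n, f.answers Y (zr n) (f.clock (zr n)).length) = f.run Y (zr n) := rfl
  rw [h7] at h6
  omega

/-- the words for which the verifier accepts the value of `f` at `0^n`, with the block of the word
added to the oracle, form a language in NP relative to `A`; the words of length less than `n0` are
treated separately -/
theorem mem_NPo (A t : Oracle) (ht : FP t) (i n0 : ℕ) (e : Bool)
    (M : OracleProc (List Bool × List Bool) Bool) (p : Polynomial ℕ)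
    (f : OracleProc (List Bool) (List Bool)) (L : DecisionProblem)
    (hL : ∀ z, L z = true ↔ (n0 ≤ z.length ∧ Accepts M p (J A (add t i z))
      (f.run (J A (add t i z)) (zr z.length))) ∨ (z.length < n0 ∧ e = true)) : L ∈ NPo A := by
  obtain ⟨q, hq⟩ := exists_out_bound f
  -- the procedure with the joined oracle
  have hzr : FP fun s : List Bool × List Bool => zr s.1.length := by
    have h : FP fun s : List Bool × List Bool => s.1.map fun _ => false := by
      exact FP.map (FP.const _) FP.fst
    refine (congrArg FP (funext fun s => ?_)).mp h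
    rw [zr, List.map_const']
  obtain ⟨M2, hM2⟩ := Helper49.Cons.exists_post
    (Helper49.Cons.pre M (fun s : (List Bool × List Bool) × List Bool => (s.2, s.1.2))
      (FP.pair FP.snd FP.fst.snd'))
    (fun s => decide (s.1.1.2.length ≤ (un (p.eval s.1.2.length)).length) && s.2)
    ((FP.length_le (by fun_prop) (FP.un_poly (by fun_prop) p)).and FP.snd)
  obtain ⟨K, hK⟩ := Helper49.Cons.exists_bind (Helper49.Cons.pre f _ hzr) M2
  have ho : FP fun c : List Bool × List Bool => t c.2 || blk i c.1 c.2 :=
    (ht.comp FP.snd).or (FP.blk i FP.fst FP.snd)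
  obtain ⟨S, hS⟩ := Helper49.Cons.exists_post
    (Helper49.Cons.pre (simJoin K _ ho) (fun s : List Bool × List Bool => (s.1, s))
      (FP.pair FP.fst FP.id))
    (fun s => if decide ((un n0).length ≤ s.1.1.length) then s.2 else e)
    (FP.ite (FP.length_le (FP.const (un n0)) FP.fst.fst') FP.snd (FP.const e))
  have hrun : ∀ z w, S.run A (z, w) = true ↔ (n0 ≤ z.length ∧
      (w.length ≤ p.eval (f.run (J A (add t i z)) (zr z.length)).length ∧
        M.run (J A (add t i z)) (f.run (J A (add t i z)) (zr z.length), w) = true)) ∨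
      (z.length < n0 ∧ e = true) := by
    intro z w
    rw [hS, Helper49.Cons.pre_run, simJoin_run K ho (J := J A (add t i z)) (A := A) (z, (z, w))
      (isJoin_J A _), hK, hM2, Helper49.Cons.pre_run, Helper49.Cons.pre_run]
    simp only [un_length]
    by_cases h : n0 ≤ z.length
    · rw [if_pos (decide_eq_true h)]
      simp only [Bool.and_eq_true, decide_eq_true_eq, h, true_and]
      constructor
      · exact fun h1 => Or.inl h1
      · rintro (h1 | ⟨h1, -⟩)
        · exact h1
        · omega
    · rw [if_neg (by simpa using h)]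
      constructor
      · exact fun h1 => Or.inr ⟨by omega, h1⟩
      · rintro (⟨h1, -⟩ | ⟨-, h1⟩)
        · exact absurd h1 h
        · exact h1
  refine ⟨p.comp q, S, fun z => ?_⟩
  rw [hL, Accepts, Accepts]
  constructor
  · rintro (⟨h1, w, h2, h3⟩ | h1)
    · refine ⟨w, ?_, (hrun z w).2 (Or.inl ⟨h1, h2, h3⟩)⟩
      rw [Polynomial.eval_comp]
      exact h2.trans (poly_mono p (hq _ _))
    · exact ⟨[], Nat.zero_le _, (hrun z []).2 (Or.inr h1)⟩
  · rintro ⟨w, -, h⟩
    rcases (hrun z w).1 h with ⟨h1, h2, h3⟩ | h1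
    · exact Or.inl ⟨h1, w, h2, h3⟩
    · exact Or.inr h1

/-- The hypothesis on the promise problem `(Y, Z)`: no language of NP ∩ coNP relative to `A`
agrees with `Y` on all long words satisfying exactly one of `Y`, `Z`. -/
def HardPromise (A : Oracle) (Y Z : DecisionProblem) : Prop :=
  ∀ S ∈ NPo A ∩ coNPo A, ∀ n0 : ℕ, ∃ z : List Bool, n0 ≤ z.length ∧
    (Y z = true ↔ ¬ Z z = true) ∧ ¬ (S z = true ↔ Y z = true)

theorem offStage (A : Oracle) (Y Z : DecisionProblem) (hE : HardPromise A Y Z) (P : Pr)
    (f : OracleProc (List Bool) (List Bool)) (t : Oracle) (i b : ℕ)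
    (ht : ∀ q, t q = true → q.length ≤ b) : ∃ z : List Bool, b < base i z.length ∧
      (¬ Valid P (J A (add t i z)) ∨ ((Y z = true ↔ ¬ Z z = true) ∧
        ¬ (Y z = true ↔ Accepts P.1.1 P.1.2 (J A (add t i z))
          (f.run (J A (add t i z)) (zr z.length))))) := by
  classical
  by_contra hcon
  push Not at hcon
  obtain ⟨⟨M1, p1⟩, ⟨M2, p2⟩⟩ := P
  let S : DecisionProblem := fun z => decide (b + 1 ≤ z.length ∧ Accepts M1 p1 (J A (add t i z))
    (f.run (J A (add t i z)) (zr z.length)))
  have hb : ∀ z : List Bool, b + 1 ≤ z.length → b < base i z.length := fun z hz =>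
    lt_of_lt_of_le (Nat.lt_succ_self _) (hz.trans (le_base _ _))
  have hS1 : S ∈ NPo A := by
    refine mem_NPo A t (FP_of_support ht) i (b + 1) false M1 p1 f S fun z => ?_
    simp [S]
  have hS2 : S ∈ coNPo A := by
    refine mem_NPo A t (FP_of_support ht) i (b + 1) true M2 p2 f Sᶜ fun z => ?_
    rw [compl_true]
    simp only [S, decide_eq_true_eq, not_and, and_true]
    constructor
    · intro h
      by_cases hz : b + 1 ≤ z.length
      · refine Or.inl ⟨hz, ?_⟩
        have h1 := (hcon z (hb z hz)).1 (f.run (J A (add t i z)) (zr z.length))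
        by_contra h2
        exact h hz (h1.2 h2)
      · exact Or.inr (by omega)
    · rintro (⟨hz, h⟩ | hz)
      · intro _ h2
        exact ((hcon z (hb z hz)).1 (f.run (J A (add t i z)) (zr z.length))).1 h2 h
      · intro h
        omega
  obtain ⟨z, hz, h1, h2⟩ := hE S ⟨hS1, hS2⟩ (b + 1)
  apply h2
  have h3 := (hcon z (hb z hz)).2 h1
  simp only [S, decide_eq_true_eq]
  constructor
  · exact fun h => h3.2 h.2
  · exact fun h => ⟨hz, h3.1 h⟩

end Pool.Agent.Helper8.Sip
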