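import Mathlib
import Pool.Agent.Helper8.Sip.Off
import Pool.Agent.Helper49.Cons.Trans

set_option autoImplicit false

/-!
# The off-switch for all classes at once
-/

namespace Pool.Agent.Helper8.Sip

open Pool.Agent.Helper22 N487b59b3 N68a2faeb N793a5b8e Filter Topology
open Pool.Agent.Helper20.Cons Pool.Agent.Helper49.Cons

theorem FP_of_finite {Q : Oracle} (h : {q | Q q = true}.Finite) : FP Q := by
  have h1 : FP fun q : List Bool => wmem h.toFinset.toList q := FP.wmem (FP.const _) FP.id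
  refine (congrArg FP (funext fun q => ?_)).mp h1
  rw [Bool.eq_iff_iff, wmem_iff]
  simp

theorem off_all (A : Oracle) (Y Z : DecisionProblem) (hY : Y ∈ NPo A) (hZ : Z ∈ NPo A)
    (hE : HardPromise A Y Z) {ι : Type} [Countable ι] (Φ : ι → Acc)
    {κ : Type} [Countable κ] (Ψ : κ → Oracle → List Bool → Option Bool)
    (hΨ : ∀ e, LocConst (Ψ e)) (BB : Set (List Bool → Option Bool)) (hBB : BB.Countable) :
    ∃ T : Oracle, Tally T ∧ Helper20.Cons.join A T ∉ HasCompleteRel ∧
      (∀ e, Ψ e (Helper20.Cons.join A T) ∈ BB → ∃ Q : Oracle, Tally Q ∧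
        {q | Q q = true}.Finite ∧ Ψ e (Helper20.Cons.join A Q) = Ψ e (Helper20.Cons.join A T)) ∧
      (∀ i j, Cls (Φ i) (Helper20.Cons.join A T) ⊆ Cls (Φ j) (Helper20.Cons.join A T) →
        Cls (Φ i) A ⊆ Cls (Φ j) A) ∧
      (∀ i j, (Φ i).Syntactic → Cls (Φ i) A ⊆ Cls (Φ j) A →
        Cls (Φ i) (Helper20.Cons.join A T) ⊆ Cls (Φ j) (Helper20.Cons.join A T)) := by
  -- all operators
  let E : Type := κ ⊕ (ι × OracleProc (List Bool) (List Bool) ×
    OracleProc (List Bool × List (List Bool)) Bool)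
  let Ω : E → Oracle → List Bool → Option Bool
    | .inl e => Ψ e
    | .inr c => verdict (Φ c.1) c.2.1 c.2.2
  have hΩ : ∀ e, LocConst (Ω e) := by
    rintro (e | c)
    · exact hΨ e
    · exact verdict_locConst _ _ _
  have hEc : Countable E := by
    have : Countable (κ ⊕ (ι × OracleProc (List Bool) (List Bool) ×
      OracleProc (List Bool × List (List Bool)) Bool)) := inferInstance
    exact this
  -- all values
  let BB' : Set (List Bool → Option Bool) :=
    BB ∪ ⋃ i, (fun (L : DecisionProblem) x => some (L x)) '' Cls (Φ i) A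
  have hBB' : BB'.Countable := by
    refine hBB.union (Set.countable_iUnion fun i => ?_)
    exact (cls_countable _ _).image _
  obtain ⟨T, hT, hno, hcons⟩ := off A Y Z hY hZ hE Ω (fun e X u => hΩ e X u) BB' hBB'
  refine ⟨T, hT, hno, fun e he => hcons (.inl e) (Or.inl he),
    fun i j h => cls_descend _ _ h fun g M L hL hLv => ?_, fun i j hi h => cls_transfer _ _ hi hT h⟩
  obtain ⟨Q, -, hQ, hQ'⟩ := hcons (.inr (j, g, M)) (by
    refine Or.inr (Set.mem_iUnion.2 ⟨i, L, hL, ?_⟩)
    exact hLv.symm)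
  exact ⟨Q, (isPolyTime_iff _).2 (FP_of_finite hQ), hQ'⟩

end Pool.Agent.Helper8.Sip
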