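import Mathlib
import Pool.Agent.Helper49.Cons.Table

set_option autoImplicit false

/-!
# Tally oracles and polynomial advice
-/

namespace Pool.Agent.Helper8.Sip

open Pool.Agent.Helper22 N487b59b3 N68a2faeb N793a5b8e
open Pool.Agent.Helper20.Cons Pool.Agent.Helper49.Cons

/-- The class P/poly relative to the oracle `X`: polynomial time with oracle `X` and an advice
word of polynomial length, which depends only on the length of the input. -/
def PPoly (X : Oracle) : DecisionComplexityClass :=
  {L | ∃ (p : Polynomial ℕ) (a : ℕ → List Bool) (M : OracleProc (List Bool × List Bool) Bool),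
    (∀ n, (a n).length ≤ p.eval n) ∧ ∀ x : List Bool, L x = M.run X (x, a x.length)}

theorem join_tab {A T : Oracle} (hT : Tally T) {n : ℕ} {q : List Bool} (hq : q.length < n) :
    join A (tab (table T n)) q = join A T q := by
  rcases q with _ | ⟨b, q⟩
  · rfl
  · cases b
    · rfl
    · rw [List.length_cons] at hq
      exact tab_table hT (by omega)

/-- A tally oracle can be replaced by polynomial advice. -/
theorem PPoly_tally {A T : Oracle} (hT : Tally T) : PPoly (join A T) = PPoly A := by
  refine Set.Subset.antisymm ?_ ?_
  · rintro L ⟨p, a, M, ha, hL⟩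
    obtain ⟨B, hB, hBm, hBle⟩ := exists_use_bound M
    let N : ℕ → ℕ := fun n => B (2 * (3 * n) + 1 + 3 * p.eval n) + 1
    have hN : PB fun n => 2 * N n + 1 + p.eval n := by
      have h1 : PB fun n => p.eval n := PB.poly p
      have h2 : PB N := by
        have h3 : PB fun n => B (2 * (3 * n) + 1 + 3 * p.eval n) := hB.comp (by fun_prop)
        exact h3.add (PB.const 1)
      fun_prop
    obtain ⟨p', hp'⟩ := hN
    refine ⟨p', fun n => cd (table T (N n)) (a n),
      pre (simJoin M (fun s : List Bool × List Bool => tab s.1 s.2) tab_FP)
        (fun s : List Bool × List Bool => (cf s.2, (s.1, cs s.2))) (by fun_prop), ?_, ?_⟩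
    · intro n
      rw [cd_length]
      have h1 : (table T (N n)).length = N n := by simp [table]
      have h2 := ha n
      have h3 := hp' n
      simp only at h3
      omega
    · intro x
      rw [pre_run, cf_cd, cs_cd, simJoin_run M tab_FP
        (J := join A (tab (table T (N x.length)))) (table T (N x.length), (x, a x.length))
        (isJoin_join A _), hL x]
      refine hBle _ _ _ fun q hq => (join_tab hT ?_).symm
      refine lt_of_le_of_lt (hq.trans (hBm ?_)) (Nat.lt_succ_self _)
      rw [sz_pair, sz_bits, sz_bits]
      have := ha x.length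
      omega
  · rintro L ⟨p, a, M, ha, hL⟩
    exact ⟨p, a, emb M, ha, fun x => by rw [hL x, emb_run]⟩

end Pool.Agent.Helper8.Sip
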